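import Pool.Agent.Lib.MP_296844_an.ND.Main
import Pool.Agent.Lib.MP_296844_an.ND.Uniq

set_option autoImplicit false

open Filter Topology Pool.Agent.Lib.MP_296844_an

/-- A polynomial centre with a nondegenerate Newton diagram such that, in every local analytic
coordinate system, all principal values exist, all interior vertices are nondegenerate and the
weighted sum of the principal values is not zero, while the return map is the identity. -/
theorem Pool.Agent.Results.MP_296844_an.Center.result :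
    AnalyticOnNhd ℝ centerField Set.univ ∧ (∀ z, centerField z = 0 ↔ z = 0) ∧
    (∀ a b, IsExpansion centerField a b → ∀ p q, IsEdgeWeight a b p q →
      ∀ φ, Real.cos φ * Real.sin φ ≠ 0 → 0 < angG a b p q φ) ∧
    ∀ Ψ : OpenPartialHomeomorph (ℝ × ℝ) (ℝ × ℝ),
      (0, 0) ∈ Ψ.source → Ψ (0, 0) = (0, 0) →
      AnalyticOnNhd ℝ Ψ Ψ.source → AnalyticOnNhd ℝ Ψ.symm Ψ.target →
      ∀ W : ℝ × ℝ → ℝ × ℝ, (∀ w, W w = fderiv ℝ Ψ (Ψ.symm w) (centerField (Ψ.symm w))) →
        (∃ a b, IsExpansion W a b) ∧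
        (∀ a b, IsExpansion W a b →
          (∃ (l : ℕ) (p q : Fin l → ℕ) (ξ lam : Fin l → ℝ), IsData a b l p q ξ lam) ∧
          ∀ (l : ℕ) (p q : Fin l → ℕ) (ξ lam : Fin l → ℝ), IsData a b l p q ξ lam →
            ∑ i, lam i * ξ i ≠ 0) ∧
        ∃ ε > 0, IsReturnMap W Ψ.target ε id := by
  refine ⟨fun z _ => ND.analytic_center z, ND.center_zero_iff,
    fun a b hE p q hpq φ hφ => ND.nondeg hE hpq hφ, ?_⟩
  intro Ψ h1 h2 h3 h4 W hW
  have h : IsChart Ψ := ⟨h1, h2, h3, h4⟩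
  obtain rfl : W = ND.pushC Ψ := funext hW
  obtain ⟨a, b, e, d, hp⟩ := ND.chart_pre h
  refine ⟨exists_expansion (ND.chart_an h), fun a' b' hE => ?_, ND.chart_ret h⟩
  obtain ⟨l, p, q, ξ, lam, h5, h6⟩ := hp.good.1 a' b' hE
  exact ⟨⟨l, p, q, ξ, lam, h5⟩, fun _ _ _ _ _ h7 => ND.data_unique h5 h7 ▸ h6⟩
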