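import Pool.Agent.Lib.MP_296844_an.Chart

set_option autoImplicit false

open Filter Topology Asymptotics Pool.Agent.Lib.MP_296844_an

/-- A polynomial vector field with a monodromic singular point such that, in every local analytic
coordinate system, the Newton diagram has exactly one edge, the principal value exists and is zero,
but the leading coefficient of the return map is smaller than one. -/
theorem Pool.Agent.Results.MP_296844_an.Cusp.result :
    AnalyticOnNhd ℝ cuspField Set.univ ∧ (∀ z, cuspField z = 0 ↔ z = 0) ∧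
    ∀ Ψ : OpenPartialHomeomorph (ℝ × ℝ) (ℝ × ℝ),
      (0, 0) ∈ Ψ.source → Ψ (0, 0) = (0, 0) →
      AnalyticOnNhd ℝ Ψ Ψ.source → AnalyticOnNhd ℝ Ψ.symm Ψ.target →
      ∀ W : ℝ × ℝ → ℝ × ℝ, (∀ w, W w = fderiv ℝ Ψ (Ψ.symm w) (cuspField (Ψ.symm w))) →
        (∃ a b, IsExpansion W a b) ∧
        (∀ a b, IsExpansion W a b → ∃ p q : ℕ,
          (∀ p' q', IsEdgeWeight a b p' q' ↔ p' = p ∧ q' = q) ∧
          HasPV (angF a b p q) (angG a b p q) 0) ∧
        ∃ ε > 0, ∃ R : ℝ → ℝ, ∃ η : ℝ, IsReturnMap W Ψ.target ε R ∧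
          (fun x => R x - η * x) =o[𝓝[>] 0] (fun x => x) ∧ 0 < η ∧ η < 1 := by
  refine ⟨fun z _ => analytic_cusp z, cusp_zero_iff, ?_⟩
  intro Ψ h1 h2 h3 h4 W hW
  have h : IsChart Ψ := ⟨h1, h2, h3, h4⟩
  obtain rfl : W = push Ψ := funext hW
  exact ⟨exists_expansion h.aW, h.newton, h.ret⟩
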